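import Pool.Agent.H80.JE.Targets
import Pool.Agent.H92.JD.EXS

/-!
# Module EXR of the board je_modules (MP_38f78d_pr): exponential moment of one step
-/

set_option autoImplicit false

namespace Pool.Agent.H13.JE

open Finset Filter Topology Pool.Agent.H80.JD Pool.Agent.H80.JE

theorem exr (hEXS : T_EXS) : T_EXR := by
  intro m D R η hη hR hRD hηR
  rcases hR.eq_or_lt with h0 | hpos
  · subst h0
    have hz : ∑ j, D j ^ 2 = 0 := by rw [← hRD]; norm_num
    have hD : ∀ j, D j = 0 := by
      intro j
      have h1 := (Finset.sum_eq_zero_iff_of_nonneg (fun j _ => sq_nonneg (D j))).1 hz j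
        (Finset.mem_univ j)
      exact pow_eq_zero_iff (two_ne_zero) |>.1 h1
    have hl : ∀ v : Fin m → Bool, lin D v = 0 := by
      intro v
      unfold lin
      apply Finset.sum_eq_zero
      intro j _
      rw [hD j]
      simp
    have : ∑ v : Fin m → Bool, Real.exp (-(η * |lin D v|)) = 2 ^ m := by
      simp [hl]
    rw [this]
    simp
  · have h := hEXS m D (R / 4) R η hη hpos hRD le_rfl hηR
    have hM : (0 : ℝ) < 2 ^ m := by positivity
    have hy : 0 ≤ η * R / 4 := by positivity
    have he := Pool.Agent.H92.JD.exp_neg_le (η * R / 4) hy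
    have hs : ∑ v : Fin m → Bool, Real.exp (η * (R / 4 - |lin D v|)) =
        Real.exp (η * R / 4) * ∑ v : Fin m → Bool, Real.exp (-(η * |lin D v|)) := by
      rw [Finset.mul_sum]
      apply Finset.sum_congr rfl
      intro v _
      rw [← Real.exp_add]
      congr 1
      ring
    rw [hs] at h
    have h2 : ∑ v : Fin m → Bool, Real.exp (-(η * |lin D v|)) ≤
        Real.exp (-(η * R / 4)) * 2 ^ m := by
      have h3 := mul_le_mul_of_nonneg_left h (Real.exp_pos (-(η * R / 4))).le
      rw [← mul_assoc, ← Real.exp_add] at h3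
      simpa using h3
    refine h2.trans ?_
    rw [mul_comm]
    apply mul_le_mul_of_nonneg_left _ hM.le
    refine he.trans ?_
    have h5 : (η * R / 4) * (η * R / 4) ≤ (η * R / 4) * (1 / 8) :=
      mul_le_mul_of_nonneg_left (by linarith) hy
    nlinarith [h5]

end Pool.Agent.H13.JE
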